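import Mathlib

/-!
# Patterns of congruent numbers: statements of the parts

The family `val j x q = j (x⁴ - 16 j² q⁴)`: for odd `x` it is `≡ j mod 8` and a congruent number.
-/

set_option autoImplicit false

namespace Pool.Agent.W275.CP

open Finset

/-- `d` is the area of a right triangle with rational sides -/
def Cong (d : ℕ) : Prop :=
  ∃ a b c : ℚ, 0 < a ∧ 0 < b ∧ 0 < c ∧ a ^ 2 + b ^ 2 = c ^ 2 ∧ (d : ℚ) = a * b / 2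

/-- the values of the family -/
def val (j x q : ℕ) : ℕ := j * (x ^ 4 - 16 * j ^ 2 * q ^ 4)

/-- product of the primes up to `K` -/
def Q0 (K : ℕ) : ℕ := ∏ p ∈ (range (K + 1)).filter Nat.Prime, p

/-- product of the primes up to `K` which do not divide `2 j` -/
def x0 (j K : ℕ) : ℕ := ∏ p ∈ (range (K + 1)).filter (fun p => Nat.Prime p ∧ ¬ p ∣ 2 * j), p

/-- the admissible `x` -/
def xx (j K y : ℕ) : ℕ := x0 j K + Q0 K * y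

/-- the sum of the reciprocals of the prime factors of `q` larger than `K` -/
noncomputable def w (K q : ℕ) : ℝ := ∑ p ∈ q.primeFactors.filter (fun p => K < p), (1 : ℝ) / p

/-- the classes -/
def J : Finset ℕ := {1, 2, 3, 5, 6, 7}

/-- the values are congruent numbers -/
def S_cong : Prop := ∀ j x q : ℕ, 0 < j → 0 < q → 16 * j ^ 2 * q ^ 4 < x ^ 4 → Cong (val j x q)

/-- the class mod 8 -/
def S_mod : Prop := ∀ j ∈ J, ∀ K y q : ℕ, 2 ≤ K → 16 * j ^ 2 * q ^ 4 < xx j K y ^ 4 →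
  val j (xx j K y) q % 8 = j

/-- a quadratic congruence modulo `p²` along a progression -/
def S_quad : Prop := ∀ (p m r a n : ℕ) (e : ℤ), p.Prime → p ≠ 2 → ¬ p ∣ m → ¬ (p : ℤ) ∣ e →
  ((Ico a (a + n)).filter fun y => ((p : ℤ) ^ 2 ∣ (((r + m * y : ℕ) : ℤ)) ^ 2 - e)).card ≤
    2 * (n / p ^ 2 + 1)

/-- a linear congruence modulo `p` along a progression -/
def S_lin : Prop := ∀ p m r a n : ℕ, p.Prime → ¬ p ∣ m →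
  ((Ico a (a + n)).filter fun y => p ∣ r + m * y).card ≤ n / p + 1

/-- how a square can divide a value -/
def S_fac : Prop := ∀ j ∈ J, ∀ K y q : ℕ, 7 ≤ K → 0 < q → Nat.Coprime q (Q0 K) →
  16 * j ^ 2 * q ^ 4 < xx j K y ^ 4 → ¬ Squarefree (val j (xx j K y) q) →
  ∃ p : ℕ, p.Prime ∧ K < p ∧
    ((p ∣ q ∧ p ∣ xx j K y) ∨ (¬ p ∣ q ∧ p ≤ 2 * xx j K y ∧
      ((p : ℤ) ^ 2 ∣ ((xx j K y : ℕ) : ℤ) ^ 2 - 4 * j * q ^ 2 ∨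
       (p : ℤ) ^ 2 ∣ ((xx j K y : ℕ) : ℤ) ^ 2 - (-(4 * j * q ^ 2)))))

/-- few values are not squarefree -/
def S_sieve : Prop := ∀ j ∈ J, ∀ η : ℝ, 0 < η → ∃ K₀ : ℕ, ∀ K : ℕ, K₀ ≤ K → ∀ δ : ℝ, 0 < δ →
  ∃ Y₀ : ℕ, ∀ Y : ℕ, Y₀ ≤ Y → ∀ q : ℕ, 0 < q → Nat.Coprime q (Q0 K) → w K q ≤ η / 8 →
  16 * j ^ 2 * q ^ 4 < (Q0 K * Y) ^ 4 →
  (((Ico Y (Y + ⌊δ * Y⌋₊)).filter fun y => ¬ Squarefree (val j (xx j K y) q)).card : ℝ) ≤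
    η * ⌊δ * Y⌋₊

/-- many integers `q` have no small prime factors and few large ones -/
def S_good : Prop := ∀ η : ℝ, 0 < η → ∃ K₀ : ℕ, ∀ K : ℕ, K₀ ≤ K → ∀ δ : ℝ, 0 < δ →
  ∃ y₀ : ℝ, 0 < y₀ ∧ ∀ y : ℝ, y₀ ≤ y → ∃ T : Finset ℕ, δ * y / (2 * Q0 K) ≤ (T.card : ℝ) ∧
    ∀ q ∈ T, 0 < q ∧ Nat.Coprime q (Q0 K) ∧ w K q ≤ η ∧ y ≤ (q : ℝ) ∧ (q : ℝ) ≤ (1 + δ) * y

/-- every finite real pattern is approximately realised, at every scale, near every large number -/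
def S_A : Prop := ∀ j ∈ J, ∀ (k : ℕ) (f : Fin k → ℝ) (ε : ℝ), 0 < ε →
  ∃ L₀ c X₀ : ℝ, 0 < c ∧ ∀ X L : ℝ, X₀ ≤ X → L₀ ≤ L → L ≤ c * X →
  ∃ N : ℝ, X ≤ N ∧ N ≤ (1 + ε) * X ∧ ∀ i, ∃ d : ℕ, Squarefree d ∧ d % 8 = j ∧ Cong d ∧
    |(d : ℝ) - N - L * f i| ≤ ε * L

/-- windows with many congruent numbers -/
def S_B : Prop := ∀ j ∈ J, ∀ ε : ℝ, 0 < ε → ∃ H₀ c X₀ : ℝ, 0 < c ∧
  ∀ X H : ℝ, X₀ ≤ X → H₀ ≤ H → H ≤ c * X →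
  ∃ N : ℝ, X ≤ N ∧ N ≤ (1 + ε) * X ∧ ∃ T : Finset ℕ, c * H ^ (1 / 4 : ℝ) ≤ (T.card : ℝ) ∧
    ∀ d ∈ T, N ≤ (d : ℝ) ∧ (d : ℝ) ≤ N + H ∧ Squarefree d ∧ d % 8 = j ∧ Cong d

end Pool.Agent.W275.CP
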