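import Pool.Agent.W275.CP.Stm

/-!
# Patterns of congruent numbers: statements for exact windows
-/

set_option autoImplicit false

namespace Pool.Agent.W275.CP

open Finset

open Classical in
/-- few values are divisible by the square of a prime not dividing the modulus -/
def S_sieve2 : Prop := ∀ j ∈ J, ∀ η : ℝ, 0 < η → ∃ K₀ : ℕ, ∀ K : ℕ, K₀ ≤ K → ∀ m r : ℕ, 0 < m →
  (∀ p : ℕ, p.Prime → p ≤ K → p ∣ m) → ∀ δ : ℝ, 0 < δ →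
  ∃ Y₀ : ℕ, ∀ Y : ℕ, Y₀ ≤ Y → ∀ q : ℕ, 0 < q → w K q ≤ η / 8 → 16 * j ^ 2 * q ^ 4 < (m * Y) ^ 4 →
  (((Ico Y (Y + ⌊δ * Y⌋₊)).filter fun y =>
    ∃ p : ℕ, p.Prime ∧ ¬ p ∣ m ∧ p ^ 2 ∣ val j (r + m * y) q).card : ℝ) ≤ η * ⌊δ * Y⌋₊

/-- `j x⁴ - h` is divisible by the square of some large prime for some `x` -/
def S_root : Prop := ∀ j h B : ℕ, 0 < j → 0 < h → ∃ p r : ℕ, p.Prime ∧ B < p ∧
  (p : ℤ) ^ 2 ∣ (j : ℤ) * (r : ℤ) ^ 4 - h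

/-- every finite real pattern is approximately realised by the set of ALL squarefree numbers of a
window, and they are congruent numbers in the class `j` -/
def S_C : Prop := ∀ j ∈ J, ∀ (k : ℕ) (f : Fin k → ℝ) (ε G : ℝ), 0 < ε →
  ∃ L X₀ : ℝ, 0 < L ∧ ∀ X : ℝ, X₀ ≤ X →
  ∃ N : ℝ, X ≤ N ∧ N ≤ (1 + ε) * X ∧ ∃ d : Fin k → ℕ,
    (∀ i, Squarefree (d i) ∧ d i % 8 = j ∧ Cong (d i) ∧ |(d i : ℝ) - N - L * f i| ≤ ε * L) ∧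
    ∀ n : ℕ, |(n : ℝ) - N| ≤ G * L → Squarefree n → ∃ i, n = d i

end Pool.Agent.W275.CP
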