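import Pool.Agent.W275.CP.Stm2
import Pool.Agent.W275.CP.A
import Pool.Agent.W52.CP.Cong

/-!
# Patterns of congruent numbers: exact windows
-/

set_option autoImplicit false

namespace Pool.Agent.W275.CP

open Finset hiding val
open Pool.Agent.W52.CP.Cong

theorem J_le {j : ℕ} (hj : j ∈ J) : j ≤ 7 ∧ j ≠ 4 := by
  simp only [J, mem_insert, mem_singleton] at hj
  omega

/-- small primes: no square divides the value -/
theorem small {j K x q p : ℕ} (hj : j ∈ J) (hx2 : p ∣ 2 * j → ¬ p ∣ x)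
    (hx1 : ¬ p ∣ 2 * j → p ∣ x) (hcop : Nat.Coprime q (Q0 K)) (h : 16 * j ^ 2 * q ^ 4 < x ^ 4)
    (hp : p.Prime) (hpK : p ≤ K) : ¬ p ^ 2 ∣ val j x q := by
  intro hpD
  have hj0 := J_pos hj
  have hj7 := J_le hj
  rw [sq] at hpD
  unfold val at hpD
  have hDx : x ^ 4 - 16 * j ^ 2 * q ^ 4 + 16 * j ^ 2 * q ^ 4 = x ^ 4 := Nat.sub_add_cancel h.le
  set D := x ^ 4 - 16 * j ^ 2 * q ^ 4 with hD
  have hpp : p ∣ p * p := dvd_mul_right p p
  by_cases h2j : p ∣ 2 * j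
  · have hpx := hx2 h2j
    have h16 : p ∣ 16 * j ^ 2 * q ^ 4 := by
      have : 16 * j ^ 2 * q ^ 4 = 2 * j * (8 * j * q ^ 4) := by ring
      rw [this]
      exact dvd_mul_of_dvd_left h2j _
    have hpD' : ¬ p ∣ D := by
      intro h3
      apply hpx
      have h4 : p ∣ x ^ 4 := by rw [← hDx]; exact dvd_add h3 h16
      exact hp.dvd_of_dvd_pow h4
    have hc : Nat.Coprime (p * p) D :=
      Nat.Coprime.mul_left ((Nat.Prime.coprime_iff_not_dvd hp).2 hpD')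
        ((Nat.Prime.coprime_iff_not_dvd hp).2 hpD')
    have h5 : p * p ∣ j := hc.dvd_of_dvd_mul_right hpD
    have h6 : p * p ≤ j := Nat.le_of_dvd hj0 h5
    have h7 : p = 2 := by
      have := hp.two_le
      nlinarith [hj7.1]
    subst h7
    omega
  · have hpx := hx1 h2j
    have hpj : ¬ p ∣ j := fun h3 => h2j (dvd_mul_of_dvd_right h3 2)
    have hpD' : p ∣ D := by
      rcases (Nat.Prime.dvd_mul hp).1 (hpp.trans hpD) with h3 | h3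
      · exact absurd h3 hpj
      · exact h3
    have h4 : p ∣ 16 * j ^ 2 * q ^ 4 := by
      have h5 : p ∣ x ^ 4 := dvd_pow hpx (by norm_num)
      rw [← hDx] at h5
      exact (Nat.dvd_add_right hpD').1 h5
    rcases (Nat.Prime.dvd_mul hp).1 h4 with h5 | h5
    · rcases (Nat.Prime.dvd_mul hp).1 h5 with h6 | h6
      · apply h2j
        have h7 : p ∣ 2 := by
          have : (16 : ℕ) = 2 ^ 4 := by norm_num
          rw [this] at h6
          exact hp.dvd_of_dvd_pow h6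
        exact dvd_mul_of_dvd_left h7 j
      · exact hpj (hp.dvd_of_dvd_pow h6)
    · have h6 : p ∣ q := hp.dvd_of_dvd_pow h5
      have h7 : p ∣ Q0 K := dvd_Q0 K p hp hpK
      have h8 : p ∣ 1 := by
        have := Nat.dvd_gcd h6 h7
        rwa [Nat.Coprime.gcd_eq_one hcop] at this
      exact hp.one_lt.ne' (Nat.dvd_one.1 h8)

theorem mod_odd {j x q : ℕ} (hj : j ∈ J) (hodd : ¬ 2 ∣ x) (h : 16 * j ^ 2 * q ^ 4 < x ^ 4) :
    val j x q % 8 = j := by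
  obtain ⟨k, hk⟩ : ∃ k, x = 2 * k + 1 := ⟨x / 2, by omega⟩
  obtain ⟨t, ht⟩ : ∃ t, k * (k + 1) = 2 * t := (Nat.even_mul_succ_self k).two_dvd
  have hx4 : x ^ 4 = 16 * (4 * t ^ 2 + t) + 1 := by
    have h1 : x ^ 2 = 8 * t + 1 := by
      rw [hk]
      calc (2 * k + 1) ^ 2 = 4 * (k * (k + 1)) + 1 := by ring
        _ = 8 * t + 1 := by rw [ht]; ring
    calc x ^ 4 = (x ^ 2) ^ 2 := by ring
      _ = 16 * (4 * t ^ 2 + t) + 1 := by rw [h1]; ring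
  unfold val
  rw [hx4] at h ⊢
  have h5 : 16 * j ^ 2 * q ^ 4 = 16 * (j ^ 2 * q ^ 4) := by ring
  rw [h5] at h ⊢
  set u := j ^ 2 * q ^ 4
  set s := 4 * t ^ 2 + t
  have h6 : 16 * s + 1 - 16 * u = 8 * (2 * (s - u)) + 1 := by omega
  rw [h6, mul_add, mul_one]
  have h7 : j * (8 * (2 * (s - u))) = 8 * (j * (2 * (s - u))) := by ring
  rw [h7, Nat.mul_add_mod]
  have hj' : j < 8 := by
    have := (J_le hj).1
    omega
  exact Nat.mod_eq_of_lt hj'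

theorem Q0_prime {K p : ℕ} (hp : p.Prime) (h : p ∣ Q0 K) : p ≤ K := by
  unfold Q0 at h
  obtain ⟨r, hr, hpr⟩ := (Nat.Prime.prime hp).exists_mem_finset_dvd h
  rw [mem_filter, mem_range] at hr
  have : p = r := (Nat.prime_dvd_prime_iff_eq hp hr.2).1 hpr
  subst this
  omega

/-- the auxiliary primes -/
theorem aux (hroot : S_root) (j B : ℕ) (hj : 0 < j) : ∃ P R : ℕ → ℕ, StrictMono P ∧
    (∀ n, (P n).Prime ∧ B < P n ∧ (P n : ℤ) ^ 2 ∣ (j : ℤ) * (R n : ℤ) ^ 4 - ((n + 1 : ℕ) : ℤ)) := by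
  have h : ∀ n C : ℕ, ∃ p r : ℕ, p.Prime ∧ C < p ∧
      (p : ℤ) ^ 2 ∣ (j : ℤ) * (r : ℤ) ^ 4 - ((n + 1 : ℕ) : ℤ) := fun n C =>
    hroot j (n + 1) C hj (Nat.succ_pos n)
  choose gp gr h1 h2 h3 using h
  let P : ℕ → ℕ := fun n => Nat.rec (gp 0 B) (fun n prev => gp (n + 1) prev) n
  have hP0 : P 0 = gp 0 B := rfl
  have hPs : ∀ n, P (n + 1) = gp (n + 1) (P n) := fun n => rfl
  let R : ℕ → ℕ := fun n => match n with
    | 0 => gr 0 B
    | n + 1 => gr (n + 1) (P n)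
  have hmono : StrictMono P := strictMono_nat_of_lt_succ fun n => by
    rw [hPs]
    exact h2 _ _
  refine ⟨P, R, hmono, fun n => ?_⟩
  rcases n with _ | n
  · exact ⟨h1 0 B, h2 0 B, h3 0 B⟩
  · refine ⟨h1 (n + 1) (P n), ?_, h3 (n + 1) (P n)⟩
    have : B < P 0 := h2 0 B
    exact this.trans_le (hmono.monotone (Nat.zero_le (n + 1)))

/-- the progression -/
theorem prog (hroot : S_root) (j K B H : ℕ) (hj : 0 < j) (hB : K ≤ B) (T : Finset ℕ) :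
    ∃ m r : ℕ, 0 < m ∧ (∀ p : ℕ, p.Prime → p ≤ K → p ∣ m) ∧ ∀ y : ℕ,
      (∀ p : ℕ, p.Prime → p ≤ K → (p ∣ 2 * j → ¬ p ∣ r + m * y) ∧ (¬ p ∣ 2 * j → p ∣ r + m * y)) ∧
      (∀ p : ℕ, p.Prime → p ∣ m → K < p → B < p ∧ ∃ h : ℕ, 0 < h ∧ h ≤ H ∧ h ∉ T ∧
        (p : ℤ) ^ 2 ∣ (j : ℤ) * ((r + m * y : ℕ) : ℤ) ^ 4 - h) ∧
      (∀ h : ℕ, 0 < h → h ≤ H → h ∉ T → ∃ p : ℕ, p.Prime ∧
        (p : ℤ) ^ 2 ∣ (j : ℤ) * ((r + m * y : ℕ) : ℤ) ^ 4 - h) := by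
  obtain ⟨P, R, hmono, hPR⟩ := aux hroot j B hj
  obtain ⟨S, hS⟩ : ∃ S : Finset ℕ, S = (range H).filter fun n => n + 1 ∉ T := ⟨_, rfl⟩
  have hpair : Set.Pairwise (S : Set ℕ) (Function.onFun Nat.Coprime fun n => P n ^ 2) := by
    intro a _ b _ hab
    refine Nat.Coprime.pow 2 2 ?_
    exact (Nat.coprime_primes (hPR a).1 (hPR b).1).2 fun h => hab (hmono.injective h)
  obtain ⟨r1, hr1⟩ := Nat.chineseRemainderOfFinset (fun n => R n) (fun n => P n ^ 2) S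
    (fun n _ => pow_ne_zero 2 (hPR n).1.ne_zero) hpair
  obtain ⟨m1, hm1⟩ : ∃ m1 : ℕ, m1 = ∏ n ∈ S, P n ^ 2 := ⟨_, rfl⟩
  have hcop : Nat.Coprime (Q0 K) m1 := by
    rw [hm1]
    refine Nat.Coprime.prod_right fun n _ => Nat.Coprime.pow_right 2 ?_
    rw [Nat.coprime_comm, Nat.Prime.coprime_iff_not_dvd (hPR n).1]
    intro h
    have := Q0_prime (hPR n).1 h
    have := (hPR n).2.1
    omega
  obtain ⟨r, hr, hr'⟩ := Nat.chineseRemainder hcop (x0 j K) r1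
  have hm10 : 0 < m1 := by
    rw [hm1]
    exact Finset.prod_pos fun n _ => pow_pos (hPR n).1.pos 2
  have hdivQ : ∀ p : ℕ, p.Prime → p ≤ K → p ∣ Q0 K := fun p hp h => dvd_Q0 K p hp h
  have hxQ : ∀ y, (r + Q0 K * m1 * y) ≡ x0 j K [MOD Q0 K] := by
    intro y
    have h2 : Q0 K * m1 * y ≡ 0 [MOD Q0 K] := by
      rw [Nat.modEq_zero_iff_dvd, mul_assoc]
      exact dvd_mul_right _ _
    have := hr.add h2
    simpa using this
  have hxP : ∀ y, ∀ n ∈ S, (r + Q0 K * m1 * y) ≡ R n [MOD P n ^ 2] := by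
    intro y n hn
    have hd : P n ^ 2 ∣ m1 := by
      rw [hm1]
      exact Finset.dvd_prod_of_mem (fun n => P n ^ 2) hn
    have h2 : Q0 K * m1 * y ≡ 0 [MOD P n ^ 2] := by
      rw [Nat.modEq_zero_iff_dvd]
      exact dvd_mul_of_dvd_left (dvd_mul_of_dvd_right hd _) _
    have h3 : r ≡ R n [MOD P n ^ 2] := (hr'.of_dvd hd).trans (hr1 n hn)
    have := h3.add h2
    simpa using this
  have hval : ∀ y, ∀ n ∈ S, (P n : ℤ) ^ 2 ∣
      (j : ℤ) * ((r + Q0 K * m1 * y : ℕ) : ℤ) ^ 4 - ((n + 1 : ℕ) : ℤ) := by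
    intro y n hn
    have h1 := (hPR n).2.2
    have h2 : ((r + Q0 K * m1 * y : ℕ) : ℤ) ≡ (R n : ℤ) [ZMOD ((P n ^ 2 : ℕ) : ℤ)] :=
      (Int.natCast_modEq_iff).2 (hxP y n hn)
    have h3 : (j : ℤ) * ((r + Q0 K * m1 * y : ℕ) : ℤ) ^ 4 - ((n + 1 : ℕ) : ℤ) ≡
        (j : ℤ) * (R n : ℤ) ^ 4 - ((n + 1 : ℕ) : ℤ) [ZMOD ((P n ^ 2 : ℕ) : ℤ)] :=
      ((h2.pow 4).mul_left _).sub_right _
    have h4 : ((P n ^ 2 : ℕ) : ℤ) = (P n : ℤ) ^ 2 := by push_cast; ring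
    rw [h4] at h3
    exact h3.dvd_iff.2 h1
  refine ⟨Q0 K * m1, r, Nat.mul_pos (Q0_pos K) hm10, fun p hp h => dvd_mul_of_dvd_left
    (hdivQ p hp h) _, fun y => ⟨fun p hp h => ?_, fun p hp hpm hpK => ?_, fun h hh0 hhH hhT => ?_⟩⟩
  · have h1 : (r + Q0 K * m1 * y) ≡ x0 j K [MOD p] := (hxQ y).of_dvd (hdivQ p hp h)
    refine ⟨fun h2 h3 => ?_, fun h2 => ?_⟩
    · have h4 : p ∣ x0 j K := (Nat.modEq_zero_iff_dvd.1 (h1.symm.trans (Nat.modEq_zero_iff_dvd.2 h3)))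
      exact (prime_dvd_x0 j K p hp h4).2 h2
    · have h4 : p ∣ x0 j K := dvd_x0 j K p hp h h2
      exact Nat.modEq_zero_iff_dvd.1 (h1.trans (Nat.modEq_zero_iff_dvd.2 h4))
  · rcases (Nat.Prime.dvd_mul hp).1 hpm with h1 | h1
    · have := Q0_prime hp h1
      omega
    · rw [hm1] at h1
      obtain ⟨n, hn, hpn⟩ := (Nat.Prime.prime hp).exists_mem_finset_dvd h1
      have h2 : p = P n := (Nat.prime_dvd_prime_iff_eq hp (hPR n).1).1 (hp.dvd_of_dvd_pow hpn)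
      rw [h2]
      have hn' := hn
      rw [hS, mem_filter, mem_range] at hn'
      exact ⟨(hPR n).2.1, n + 1, Nat.succ_pos n, hn'.1, hn'.2, hval y n hn⟩
  · have hn : h - 1 ∈ S := by
      rw [hS, mem_filter, mem_range, Nat.sub_add_cancel hh0]
      exact ⟨by omega, hhT⟩
    have h1 := hval y (h - 1) hn
    rw [Nat.sub_add_cancel hh0] at h1
    exact ⟨P (h - 1), (hPR _).1, h1⟩

end Pool.Agent.W275.CP
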