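import Pool.Agent.W275.CP.C

/-!
# Patterns of congruent numbers: exact windows, assembly
-/

set_option autoImplicit false

namespace Pool.Agent.W275.CP

open Finset hiding val
open Pool.Agent.W52.CP.Cong

theorem exact_windows (hcong : S_cong) (hsieve : S_sieve2) (hgood : S_good) (hroot : S_root) :
    S_C := by
  intro j hj k f ε G hε
  have hj0 : 0 < j := J_pos hj
  have hjr : (1 : ℝ) ≤ j := by exact_mod_cast hj0
  have hjp : (0 : ℝ) < j := by linarith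
  obtain ⟨e, he⟩ : ∃ e : ℝ, e = min ε 1 := ⟨_, rfl⟩
  have he0 : 0 < e := by rw [he]; exact lt_min hε one_pos
  have he1 : e ≤ 1 := by rw [he]; exact min_le_right _ _
  have heε : e ≤ ε := by rw [he]; exact min_le_left _ _
  obtain ⟨F, hF⟩ : ∃ F : ℝ, F = 1 + ∑ i, |f i| + |G| := ⟨_, rfl⟩
  have hsum0 : 0 ≤ ∑ i, |f i| := Finset.sum_nonneg fun i _ => abs_nonneg _
  have hFi : ∀ i, |f i| ≤ F - 1 := by
    intro i
    have : |f i| ≤ ∑ i, |f i| :=
      Finset.single_le_sum (f := fun i => |f i|) (fun i _ => abs_nonneg _) (Finset.mem_univ i)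
    have := abs_nonneg G
    linarith
  have hFG : |G| ≤ F - 1 := by linarith
  have hF1 : 1 ≤ F := by
    have := abs_nonneg G
    linarith
  have hF0 : 0 < F := by linarith
  have hFf : ∀ i, 1 ≤ F - f i ∧ F - f i ≤ 2 * F := by
    intro i
    have h1 := hFi i
    have h2 := le_abs_self (f i)
    have h3 := neg_abs_le (f i)
    constructor <;> linarith
  -- parameters
  obtain ⟨η, hη⟩ : ∃ η : ℝ, η = 1 / (2 * ((k : ℝ) + 1)) := ⟨_, rfl⟩
  have hη0 : 0 < η := by rw [hη]; positivity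
  obtain ⟨δ₁, hδ₁⟩ : ∃ δ : ℝ, δ = e / (30 * F) := ⟨_, rfl⟩
  have hδ₁0 : 0 < δ₁ := by rw [hδ₁]; positivity
  have hδ₁1 : δ₁ ≤ 1 := by
    rw [hδ₁, div_le_one (by positivity)]
    linarith
  have hδ₁F : 15 * δ₁ * (2 * F) = e := by
    rw [hδ₁]
    field_simp
    norm_num
  obtain ⟨δ₂, hδ₂⟩ : ∃ δ : ℝ, δ = e / 60 := ⟨_, rfl⟩
  have hδ₂0 : 0 < δ₂ := by rw [hδ₂]; positivity
  have hδ₂1 : 2 * δ₂ ≤ 1 := by rw [hδ₂]; linarith
  obtain ⟨K₁, hK₁⟩ := hsieve j hj η hη0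
  obtain ⟨K₂, hK₂⟩ := hgood (η / 8) (by positivity)
  obtain ⟨K, hK⟩ : ∃ K : ℕ, K = max 2 (max K₁ K₂) := ⟨_, rfl⟩
  have hK2 : 2 ≤ K := by rw [hK]; exact le_max_left _ _
  have hKK₁ : K₁ ≤ K := by rw [hK]; exact (le_max_left _ _).trans (le_max_right _ _)
  obtain ⟨y₀, hy₀0, hy₀⟩ := hK₂ K (by rw [hK]; exact (le_max_right _ _).trans (le_max_right _ _))
    δ₁ hδ₁0
  -- the scale
  obtain ⟨L, hL⟩ : ∃ L : ℝ, L = 16 * (j : ℝ) ^ 3 * y₀ ^ 4 := ⟨_, rfl⟩
  have hL0 : 0 < L := by rw [hL]; positivity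
  have hFL0 : 0 < F * L := mul_pos hF0 hL0
  -- the integers `q`
  have hq : ∀ i, ∃ q : ℕ, 0 < q ∧ Nat.Coprime q (Q0 K) ∧ w K q ≤ η / 8 ∧
      (F - f i) * L ≤ 16 * (j : ℝ) ^ 3 * (q : ℝ) ^ 4 ∧
      16 * (j : ℝ) ^ 3 * (q : ℝ) ^ 4 ≤ (F - f i) * L + e * L := by
    intro i
    obtain ⟨hf1, hf2⟩ := hFf i
    have hz : 0 ≤ (F - f i) * L / (16 * (j : ℝ) ^ 3) := by
      have : 0 ≤ F - f i := by linarith
      positivity
    obtain ⟨y, hy⟩ : ∃ y : ℝ, y = rt ((F - f i) * L / (16 * (j : ℝ) ^ 3)) := ⟨_, rfl⟩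
    have hy4 : 16 * (j : ℝ) ^ 3 * y ^ 4 = (F - f i) * L := by
      rw [hy, rt_pow hz]
      field_simp
    have hy0 : y₀ ≤ y := by
      rw [hy]
      refine le_rt hy₀0.le ?_
      rw [le_div_iff₀ (by positivity)]
      have h1 : L ≤ (F - f i) * L := le_mul_of_one_le_left hL0.le hf1
      linarith [mul_comm (y₀ ^ 4) (16 * (j : ℝ) ^ 3)]
    obtain ⟨T, hT, hTq⟩ := hy₀ y hy0
    have hypos : 0 < y := lt_of_lt_of_le hy₀0 hy0
    have hQ : (0 : ℝ) < Q0 K := by exact_mod_cast Q0_pos K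
    have hT0 : (0 : ℝ) < T.card := lt_of_lt_of_le (by positivity) hT
    have hT1 : 0 < T.card := by exact_mod_cast hT0
    obtain ⟨q, hqT⟩ := Finset.card_pos.1 hT1
    obtain ⟨q1, q2, q3, q4, q5⟩ := hTq q hqT
    refine ⟨q, q1, q2, q3, ?_, ?_⟩
    · rw [← hy4]
      exact mul_le_mul_of_nonneg_left (pow_le_pow_left₀ hypos.le q4 4) (by positivity)
    · calc 16 * (j : ℝ) ^ 3 * (q : ℝ) ^ 4 ≤ 16 * (j : ℝ) ^ 3 * ((1 + δ₁) * y) ^ 4 :=
            mul_le_mul_of_nonneg_left (pow_le_pow_left₀ (by positivity) q5 4) (by positivity)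
        _ = (1 + δ₁) ^ 4 * ((F - f i) * L) := by
            rw [← hy4]
            ring
        _ ≤ (1 + 15 * δ₁) * ((F - f i) * L) := by
            refine mul_le_mul_of_nonneg_right (four hδ₁0.le hδ₁1) ?_
            have : 0 ≤ F - f i := by linarith
            positivity
        _ = (F - f i) * L + 15 * δ₁ * (F - f i) * L := by ring
        _ ≤ (F - f i) * L + e * L := by
            have h1 : 15 * δ₁ * (F - f i) ≤ 15 * δ₁ * (2 * F) :=
              mul_le_mul_of_nonneg_left hf2 (by positivity)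
            rw [hδ₁F] at h1
            have := mul_le_mul_of_nonneg_right h1 hL0.le
            linarith
  choose q q1 q2 q3 q4 q5 using hq
  -- the progression
  obtain ⟨T, hT⟩ : ∃ T : Finset ℕ, T = Finset.univ.image fun i => 16 * j ^ 3 * q i ^ 4 := ⟨_, rfl⟩
  obtain ⟨H, hH⟩ : ∃ H : ℕ, H = ⌈3 * (F * L)⌉₊ := ⟨_, rfl⟩
  have hH' : 3 * (F * L) ≤ H := by rw [hH]; exact Nat.le_ceil _
  obtain ⟨M, r, hM0, hMK, hprog⟩ := prog hroot j K (max K H) H hj0 (le_max_left _ _) T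
  have hqH : ∀ i, 16 * j ^ 3 * q i ^ 4 ≤ H := by
    intro i
    have h1 : 16 * (j : ℝ) ^ 3 * (q i : ℝ) ^ 4 ≤ H := by
      refine (q5 i).trans (le_trans ?_ hH')
      have h2 := mul_le_mul_of_nonneg_right (hFf i).2 hL0.le
      have h3 := mul_le_mul_of_nonneg_right (he1.trans hF1) hL0.le
      linarith
    exact_mod_cast h1
  obtain ⟨Y₀, hY₀⟩ := hK₁ K hKK₁ M r hM0 hMK δ₂ hδ₂0
  have hMr : (0 : ℝ) < M := by exact_mod_cast hM0
  obtain ⟨a, ha⟩ : ∃ a : ℝ, a = r := ⟨_, rfl⟩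
  have ha0 : 0 ≤ a := by rw [ha]; positivity
  -- thresholds
  obtain ⟨B, hB⟩ : ∃ B : ℝ, B = M * Y₀ + M / δ₂ + (a + 2 * M) / δ₂ := ⟨_, rfl⟩
  have hB1 : M * (Y₀ : ℝ) ≤ B := by
    rw [hB]
    have : 0 ≤ M / δ₂ + (a + 2 * M) / δ₂ := by positivity
    linarith
  have hB2 : M / δ₂ ≤ B := by
    rw [hB]
    have : 0 ≤ M * (Y₀ : ℝ) + (a + 2 * M) / δ₂ := by positivity
    linarith
  have hB3 : (a + 2 * M) / δ₂ ≤ B := by
    rw [hB]
    have : 0 ≤ M * (Y₀ : ℝ) + M / δ₂ := by positivity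
    linarith
  have hB0 : 0 ≤ B := le_trans (by positivity) hB2
  refine ⟨L, j * B ^ 4 + 4 * (F * L), hL0, ?_⟩
  intro X hX
  have hXB : j * B ^ 4 ≤ X := by linarith
  have hX4 : 4 * (F * L) ≤ X := by
    have : 0 ≤ j * B ^ 4 := by positivity
    linarith
  have hX0 : 0 ≤ X := by linarith
  have hFL : F * L ≤ X / 4 := by linarith
  -- the variable `Y`
  have hz : 0 ≤ (X + F * L) / j := by positivity
  obtain ⟨R, hR⟩ : ∃ R : ℝ, R = rt ((X + F * L) / j) := ⟨_, rfl⟩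
  have hR4 : j * R ^ 4 = X + F * L := by
    rw [hR, rt_pow hz]
    field_simp
  have hRB : B ≤ R := by
    rw [hR]
    refine le_rt hB0 ?_
    rw [le_div_iff₀ hjp]
    linarith [mul_comm (B ^ 4) (j : ℝ)]
  have hR0 : 0 ≤ R := hB0.trans hRB
  obtain ⟨Y, hY⟩ : ∃ Y : ℕ, Y = ⌈R / M⌉₊ := ⟨_, rfl⟩
  have hY1 : R ≤ M * Y := by
    have : R / M ≤ Y := by rw [hY]; exact Nat.le_ceil _
    rw [div_le_iff₀ hMr] at this
    linarith [mul_comm (Y : ℝ) (M : ℝ)]
  have hY2 : (M : ℝ) * Y ≤ R + M := by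
    have : (Y : ℝ) < R / M + 1 := by
      rw [hY]
      exact Nat.ceil_lt_add_one (by positivity)
    have h2 := mul_le_mul_of_nonneg_left this.le hMr.le
    have h3 : (M : ℝ) * (R / M + 1) = R + M := by field_simp
    linarith
  have hYY : Y₀ ≤ Y := by
    have h1 : (M : ℝ) * Y₀ ≤ M * Y := hB1.trans (hRB.trans hY1)
    have h2 : (Y₀ : ℝ) ≤ Y := le_of_mul_le_mul_left h1 hMr
    exact_mod_cast h2
  have hYδ : 1 ≤ δ₂ * Y := by
    have h1 : (M : ℝ) / δ₂ ≤ M * Y := hB2.trans (hRB.trans hY1)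
    rw [div_le_iff₀ hδ₂0] at h1
    have h2 : (M : ℝ) * 1 ≤ M * (δ₂ * Y) := by linarith [mul_comm (M * (Y : ℝ)) δ₂]
    exact le_of_mul_le_mul_left h2 hMr
  obtain ⟨n, hn⟩ : ∃ n : ℕ, n = ⌊δ₂ * Y⌋₊ := ⟨_, rfl⟩
  have hn0 : 0 < n := by rw [hn]; exact Nat.floor_pos.2 hYδ
  have hnY : (n : ℝ) ≤ δ₂ * Y := by rw [hn]; exact Nat.floor_le (by positivity)
  -- the size condition
  have hsize : ∀ i, 16 * j ^ 2 * q i ^ 4 < (M * Y) ^ 4 := by
    intro i
    obtain ⟨hf1, hf2⟩ := hFf i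
    have h1 : (j : ℝ) * (16 * (j : ℝ) ^ 2 * (q i : ℝ) ^ 4) < j * ((M : ℝ) * Y) ^ 4 := by
      calc (j : ℝ) * (16 * (j : ℝ) ^ 2 * (q i : ℝ) ^ 4) = 16 * (j : ℝ) ^ 3 * (q i : ℝ) ^ 4 := by ring
        _ ≤ (F - f i) * L + e * L := q5 i
        _ ≤ 2 * F * L + F * L := by
            have h2 := mul_le_mul_of_nonneg_right hf2 hL0.le
            have h3 := mul_le_mul_of_nonneg_right (he1.trans hF1) hL0.le
            linarith
        _ < X + F * L := by linarith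
        _ = j * R ^ 4 := hR4.symm
        _ ≤ j * ((M : ℝ) * Y) ^ 4 :=
            mul_le_mul_of_nonneg_left (pow_le_pow_left₀ hR0 hY1 4) hjp.le
    have h2 := lt_of_mul_lt_mul_left h1 hjp.le
    exact_mod_cast h2
  -- a good `y`
  obtain ⟨y, hyI, hygood⟩ : ∃ y ∈ Ico Y (Y + n), ∀ i, ∀ p : ℕ, p.Prime → ¬ p ∣ M →
      ¬ p ^ 2 ∣ val j (r + M * y) (q i) := by
    classical
    by_contra hcon
    push Not at hcon
    have h1 : Ico Y (Y + n) ⊆ Finset.univ.biUnion fun i : Fin k =>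
        (Ico Y (Y + n)).filter fun y => ∃ p : ℕ, p.Prime ∧ ¬ p ∣ M ∧
          p ^ 2 ∣ val j (r + M * y) (q i) := by
      intro y hy
      obtain ⟨i, p, hp⟩ := hcon y hy
      exact Finset.mem_biUnion.2 ⟨i, Finset.mem_univ i, Finset.mem_filter.2 ⟨hy, p, hp⟩⟩
    have h2 := (Finset.card_le_card h1).trans Finset.card_biUnion_le
    have h3 : (n : ℝ) ≤ ∑ i : Fin k, η * n := by
      have h4 : (n : ℝ) ≤ ∑ i : Fin k, (((Ico Y (Y + n)).filter fun y => ∃ p : ℕ, p.Prime ∧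
          ¬ p ∣ M ∧ p ^ 2 ∣ val j (r + M * y) (q i)).card : ℝ) := by
        rw [Nat.card_Ico, Nat.add_sub_cancel_left] at h2
        exact_mod_cast h2
      refine h4.trans (Finset.sum_le_sum fun i _ => ?_)
      have h5 := hY₀ Y hYY (q i) (q1 i) (q3 i) (hsize i)
      rw [← hn] at h5
      convert h5 using 3
    rw [Finset.sum_const, Finset.card_univ, Fintype.card_fin, nsmul_eq_mul, hη] at h3
    have hn' : (0 : ℝ) < n := by exact_mod_cast hn0
    have hk : (k : ℝ) * (1 / (2 * ((k : ℝ) + 1)) * n) < n := by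
      have h6 : (k : ℝ) * (1 / (2 * ((k : ℝ) + 1))) < 1 := by
        rw [mul_one_div, div_lt_one (by positivity)]
        have : (0 : ℝ) ≤ k := Nat.cast_nonneg k
        linarith
      calc (k : ℝ) * (1 / (2 * ((k : ℝ) + 1)) * n) = (k : ℝ) * (1 / (2 * ((k : ℝ) + 1))) * n := by ring
        _ < 1 * n := mul_lt_mul_of_pos_right h6 hn'
        _ = n := one_mul _
    linarith
  rw [Finset.mem_Ico] at hyI
  obtain ⟨x, hx⟩ : ∃ x : ℕ, x = r + M * y := ⟨_, rfl⟩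
  have hxr : (x : ℝ) = a + M * y := by
    rw [hx, ha]
    push_cast
    ring
  have hxlow : (M : ℝ) * Y ≤ x := by
    have h1 : (Y : ℝ) ≤ y := by exact_mod_cast hyI.1
    have := mul_le_mul_of_nonneg_left h1 hMr.le
    linarith
  have hxup : (x : ℝ) ≤ (1 + 2 * δ₂) * R := by
    have h1 : (y : ℝ) ≤ Y + n := by exact_mod_cast hyI.2.le
    have h2 : (M : ℝ) * y ≤ M * (Y + δ₂ * Y) :=
      mul_le_mul_of_nonneg_left (by linarith) hMr.le
    have h3 : (M : ℝ) * (Y + δ₂ * Y) = (1 + δ₂) * (M * Y) := by ring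
    have h4 : (1 + δ₂) * (M * Y) ≤ (1 + δ₂) * (R + M) :=
      mul_le_mul_of_nonneg_left hY2 (by positivity)
    have h5 : a + 2 * M ≤ δ₂ * R := by
      have := hB3.trans hRB
      rw [div_le_iff₀ hδ₂0] at this
      linarith [mul_comm R δ₂]
    have h6 : (1 + δ₂) * (M : ℝ) ≤ 2 * M := by
      have := mul_le_mul_of_nonneg_right (by linarith : 1 + δ₂ ≤ 2) hMr.le
      linarith
    rw [hxr]
    nlinarith
  have hxs : ∀ i, 16 * j ^ 2 * q i ^ 4 < x ^ 4 := by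
    intro i
    refine (hsize i).trans_le (Nat.pow_le_pow_left ?_ 4)
    exact_mod_cast hxlow
  obtain ⟨hp1, hp2, hp3⟩ := hprog y
  rw [← hx] at hp1 hp2 hp3 hygood
  have hodd : ¬ 2 ∣ x := (hp1 2 Nat.prime_two hK2).1 (dvd_mul_right 2 j)
  have hvalZ : ∀ i, ((val j x (q i) : ℕ) : ℤ) = (j : ℤ) * (x : ℤ) ^ 4 - ((16 * j ^ 3 * q i ^ 4 : ℕ) : ℤ) := by
    intro i
    unfold val
    rw [Nat.cast_mul, Nat.cast_sub (hxs i).le]
    push_cast
    ring
  have hsqf : ∀ i, Squarefree (val j x (q i)) := by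
    intro i
    rw [Nat.squarefree_iff_prime_squarefree]
    intro p hp hpd
    rw [← sq] at hpd
    by_cases hpK : p ≤ K
    · exact small hj (hp1 p hp hpK).1 (hp1 p hp hpK).2 (q2 i) (hxs i) hp hpK hpd
    push Not at hpK
    by_cases hpM : p ∣ M
    · obtain ⟨h1, h, hh0, hhH, hhT, hdiv⟩ := hp2 p hp hpM hpK
      have h2 : (p : ℤ) ^ 2 ∣ (j : ℤ) * (x : ℤ) ^ 4 - ((16 * j ^ 3 * q i ^ 4 : ℕ) : ℤ) := by
        rw [← hvalZ]
        exact_mod_cast hpd
      have h3 : (p : ℤ) ^ 2 ∣ (h : ℤ) - ((16 * j ^ 3 * q i ^ 4 : ℕ) : ℤ) := by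
        have := dvd_sub h2 hdiv
        have e1 : (j : ℤ) * (x : ℤ) ^ 4 - ((16 * j ^ 3 * q i ^ 4 : ℕ) : ℤ) -
          ((j : ℤ) * (x : ℤ) ^ 4 - h) = (h : ℤ) - ((16 * j ^ 3 * q i ^ 4 : ℕ) : ℤ) := by ring
        rwa [e1] at this
      have hpH : H < p := lt_of_le_of_lt (le_max_right _ _) h1
      have h4 : (h : ℤ) - ((16 * j ^ 3 * q i ^ 4 : ℕ) : ℤ) = 0 := by
        refine Int.eq_zero_of_abs_lt_dvd h3 ?_
        have hqi := hqH i
        have h5 : ((16 * j ^ 3 * q i ^ 4 : ℕ) : ℤ) ≤ H := by exact_mod_cast hqi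
        have h6 : (h : ℤ) ≤ H := by exact_mod_cast hhH
        have h7 : (0 : ℤ) ≤ ((16 * j ^ 3 * q i ^ 4 : ℕ) : ℤ) := by positivity
        have h8 : (0 : ℤ) ≤ (h : ℤ) := by positivity
        have h9 : (H : ℤ) < p := by exact_mod_cast hpH
        have h10 : (p : ℤ) ≤ (p : ℤ) ^ 2 := by nlinarith
        rw [abs_lt]
        constructor <;> linarith
      have h5 : h = 16 * j ^ 3 * q i ^ 4 := by
        have : (h : ℤ) = ((16 * j ^ 3 * q i ^ 4 : ℕ) : ℤ) := by linarith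
        exact_mod_cast this
      apply hhT
      rw [hT, h5]
      exact Finset.mem_image_of_mem _ (Finset.mem_univ i)
    · exact hygood i p hp hpM hpd
  refine ⟨j * (x : ℝ) ^ 4 - F * L, ?_, ?_, fun i => val j x (q i), fun i => ⟨hsqf i, ?_, ?_, ?_⟩, ?_⟩
  · have h1 : (j : ℝ) * R ^ 4 ≤ j * (x : ℝ) ^ 4 :=
      mul_le_mul_of_nonneg_left (pow_le_pow_left₀ hR0 (hY1.trans hxlow) 4) hjp.le
    linarith
  · have h1 : (j : ℝ) * (x : ℝ) ^ 4 ≤ (1 + e / 2) * (X + F * L) := by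
      calc (j : ℝ) * (x : ℝ) ^ 4 ≤ j * ((1 + 2 * δ₂) * R) ^ 4 :=
            mul_le_mul_of_nonneg_left (pow_le_pow_left₀ (by positivity) hxup 4) hjp.le
        _ = (1 + 2 * δ₂) ^ 4 * (j * R ^ 4) := by ring
        _ ≤ (1 + e / 2) * (X + F * L) := by
            rw [hR4]
            refine mul_le_mul_of_nonneg_right ?_ (by positivity)
            refine (four (by positivity) hδ₂1).trans (le_of_eq ?_)
            rw [hδ₂]
            ring
    have h2 : e / 2 * (F * L) ≤ e / 2 * (X / 4) := mul_le_mul_of_nonneg_left hFL (by positivity)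
    have h3 : e * X ≤ ε * X := mul_le_mul_of_nonneg_right heε hX0
    nlinarith [mul_nonneg he0.le hX0]
  · exact mod_odd hj hodd (hxs i)
  · exact hcong j x (q i) hj0 (q1 i) (hxs i)
  · rw [val_cast (hxs i), abs_le]
    have h1 := q4 i
    have h2 := q5 i
    have h3 : e * L ≤ ε * L := mul_le_mul_of_nonneg_right heε hL0.le
    have h4 : 0 ≤ ε * L := by positivity
    constructor <;> nlinarith
  · intro n' hn' hsq
    have hGL : |G| * L ≤ F * L - L := by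
      have := mul_le_mul_of_nonneg_right hFG hL0.le
      linarith
    have hGG : G * L ≤ |G| * L := mul_le_mul_of_nonneg_right (le_abs_self G) hL0.le
    obtain ⟨hn1, hn2⟩ := abs_le.1 hn'
    -- `h = j x⁴ - n'`
    have hlt : (n' : ℝ) < j * (x : ℝ) ^ 4 := by linarith
    have hltN : n' < j * x ^ 4 := by exact_mod_cast hlt
    obtain ⟨h, hh⟩ : ∃ h : ℕ, h = j * x ^ 4 - n' := ⟨_, rfl⟩
    have hh0 : 0 < h := by rw [hh]; exact Nat.sub_pos_of_lt hltN
    have hhr : (h : ℝ) = j * (x : ℝ) ^ 4 - n' := by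
      rw [hh, Nat.cast_sub hltN.le]
      push_cast
      ring
    have hhH : h ≤ H := by
      have : (h : ℝ) ≤ H := by
        refine le_trans ?_ hH'
        rw [hhr]
        linarith
      exact_mod_cast this
    have hn'Z : (n' : ℤ) = (j : ℤ) * (x : ℤ) ^ 4 - h := by
      have : n' + h = j * x ^ 4 := by omega
      have h2 : ((n' + h : ℕ) : ℤ) = ((j * x ^ 4 : ℕ) : ℤ) := by rw [this]
      push_cast at h2
      linarith
    by_cases hhT : h ∈ T
    · rw [hT, Finset.mem_image] at hhT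
      obtain ⟨i, -, hi⟩ := hhT
      refine ⟨i, ?_⟩
      have h1 := hvalZ i
      rw [hi, ← hn'Z] at h1
      exact_mod_cast h1.symm
    · exfalso
      obtain ⟨p, hp, hdiv⟩ := hp3 h hh0 hhH hhT
      rw [← hn'Z] at hdiv
      have h1 : p * p ∣ n' := by
        rw [← sq]
        exact_mod_cast hdiv
      have h2 := hsq p h1
      exact hp.one_lt.ne' (Nat.isUnit_iff.1 h2)

end Pool.Agent.W275.CP
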